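import Pool.Agent.Helper70K1.SP.LangH

/-!
# The code: Chinese remainders and inner products of binary digits
-/

set_option autoImplicit false

namespace Pool.Agent.H75C.FQ

open Pool.Agent.NPC Pool.Agent.Helper70K1.SP

/-! ### Signs -/

/-- `-1` for `true`, `1` for `false` -/
def sg (b : Bool) : ℤ := bif b then -1 else 1

theorem sg_mul_self (b : Bool) : sg b * sg b = 1 := by cases b <;> rfl

theorem sg_sq (b : Bool) : sg b ^ 2 = 1 := by cases b <;> rfl

theorem sg_mul_eq (a b : Bool) : sg a * sg b = if a = b then 1 else -1 := by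
  cases a <;> cases b <;> rfl

/-- Inner product of the binary digits modulo two. -/
def ip (n r : ℕ) : Bool :=
  decide (((List.range n.bits.length).filter fun i => tb n i && tb r i).length % 2 = 1)

/-- The product of signs. -/
def sip (l n r : ℕ) : ℤ := ∏ i ∈ Finset.range l, if (tb n i && tb r i) = true then -1 else 1

theorem sip_eq (l n r : ℕ) : sip l n r =
    (-1) ^ ((List.range l).filter fun i => tb n i && tb r i).length := by
  unfold sip
  rw [Finset.prod_ite, Finset.prod_const_one, mul_one, Finset.prod_const]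
  congr 1
  rw [← List.toFinset_card_of_nodup (List.nodup_range.filter _)]
  congr 1
  ext i
  simp

theorem tb_false {n l i : ℕ} (h : n < 2 ^ l) (hi : l ≤ i) : tb n i = false := by
  rw [tb_eq]
  exact Nat.testBit_lt_two_pow (lt_of_lt_of_le h (Nat.pow_le_pow_right (by norm_num) hi))

theorem sip_of_lt {l l' n : ℕ} (r : ℕ) (h : n < 2 ^ l) (hl : l ≤ l') : sip l n r = sip l' n r := by
  unfold sip
  refine Finset.prod_subset (Finset.range_mono hl) fun i _ hi => ?_
  rw [Finset.mem_range, not_lt] at hi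
  rw [tb_false h hi]
  rfl

theorem sg_ip {l n r : ℕ} (h : n < 2 ^ l) : sg (ip n r) = sip l n r := by
  have h1 : n < 2 ^ n.bits.length := by
    rw [Nat.size_eq_bits_len]
    exact Nat.lt_size_self n
  have h2 : n.bits.length ≤ l := by
    rw [Nat.size_eq_bits_len]
    exact Nat.size_le.2 h
  rw [← sip_of_lt r h1 h2, sip_eq, ip]
  rcases Nat.mod_two_eq_zero_or_one ((List.range n.bits.length).filter fun i =>
    tb n i && tb r i).length with h3 | h3
  · rw [h3, Even.neg_one_pow (Nat.even_iff.2 h3)]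
    rfl
  · rw [h3, Odd.neg_one_pow (Nat.odd_iff.2 h3)]
    rfl

/-- Flipping one digit. -/
theorem sip_xor {l n k : ℕ} (hk : k < l) (r : ℕ) :
    sip l n (r ^^^ 2 ^ k) = sip l n r * (if tb n k = true then -1 else 1) := by
  unfold sip
  have h1 : ∀ i ∈ Finset.range l, (if (tb n i && tb (r ^^^ 2 ^ k) i) = true then (-1 : ℤ) else 1) =
      (if (tb n i && tb r i) = true then -1 else 1) *
        (if i = k then (if tb n k = true then -1 else 1) else 1) := by
    intro i _
    have h2 : tb (r ^^^ 2 ^ k) i = (tb r i ^^ decide (k = i)) := by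
      rw [tb_eq, tb_eq, Nat.testBit_xor, Nat.testBit_two_pow]
    rw [h2]
    by_cases hik : i = k
    · subst hik
      cases tb n i <;> cases tb r i <;> simp
    · have h3 : decide (k = i) = false := by simpa using fun h => hik h.symm
      rw [h3, if_neg hik]
      simp
  rw [Finset.prod_congr rfl h1, Finset.prod_mul_distrib, Finset.prod_ite_eq' ,
    if_pos (Finset.mem_range.2 hk)]

/-- Orthogonality. -/
theorem sum_sip {l u v : ℕ} (hu : u < 2 ^ l) (hv : v < 2 ^ l) (huv : u ≠ v) :
    ∑ r ∈ Finset.range (2 ^ l), sip l u r * sip l v r = 0 := by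
  have hex : ∃ k, tb u k ≠ tb v k := by
    by_contra hcon
    push Not at hcon
    exact huv (Nat.eq_of_testBit_eq fun i => by rw [← tb_eq, ← tb_eq, hcon])
  obtain ⟨k, hk⟩ := hex
  have hkl : k < l := by
    by_contra hcon
    push Not at hcon
    exact hk (by rw [tb_false hu hcon, tb_false hv hcon])
  have hsg : ∀ r, sip l u (r ^^^ 2 ^ k) * sip l v (r ^^^ 2 ^ k) = -(sip l u r * sip l v r) := by
    intro r
    rw [sip_xor hkl, sip_xor hkl]
    cases h1 : tb u k <;> cases h2 : tb v k <;> simp_all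
  refine Finset.sum_involution (fun r _ => r ^^^ 2 ^ k) ?_ ?_ ?_ ?_
  · intro r _
    rw [hsg]
    ring
  · intro r _ _ h
    have h1 := congrArg (fun x => Nat.testBit x k) h
    simp only [Nat.testBit_xor, Nat.testBit_two_pow_self] at h1
    cases h2 : Nat.testBit r k <;> rw [h2] at h1 <;> simp at h1
  · intro r hr
    rw [Finset.mem_range] at hr ⊢
    exact Nat.xor_lt_two_pow hr (Nat.pow_lt_pow_right (by norm_num) hkl)
  · intro r _
    rw [Nat.xor_assoc, Nat.xor_self, Nat.xor_zero]

theorem sip_sq (l u r : ℕ) : sip l u r * sip l u r = 1 := by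
  rw [sip_eq, ← pow_add, ← two_mul, pow_mul]
  norm_num

/-! ### Few common residues -/

theorem card_common {u v j B : ℕ} (hu : u < 2 ^ j) (hv : v < 2 ^ j) (huv : u ≠ v) :
    (((Finset.range B).filter Nat.Prime).filter fun q => u % q = v % q).card ≤ j := by
  classical
  by_contra hj
  push Not at hj
  set P := (Finset.range B).filter Nat.Prime with hP
  set l' : List (ℕ × ℕ) := (P.filter fun q => u % q = v % q).toList.map
    fun q => (q, u % q) with hl'
  have hlen : j ≤ l'.length := by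
    rw [hl', List.length_map, Finset.length_toList]
    exact hj.le
  have hmem : ∀ e ∈ l', e.1.Prime ∧ e.1 ≤ B ∧ u % e.1 = e.2 ∧ v % e.1 = e.2 := by
    intro e he
    obtain ⟨q, hq, rfl⟩ := List.mem_map.1 he
    rw [Finset.mem_toList, Finset.mem_filter] at hq
    have h4 := hq.1
    rw [hP, Finset.mem_filter, Finset.mem_range] at h4
    exact ⟨h4.2, h4.1.le, rfl, hq.2.symm⟩
  have hnd : (l'.map Prod.fst).Nodup := by
    rw [hl', List.map_map]
    have : (Prod.fst ∘ fun q => (q, u % q)) = (id : ℕ → ℕ) := rfl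
    rw [this, List.map_id]
    exact Finset.nodup_toList _
  have h5 := crt_eq (X := 2 ^ j) (fun e he =>
    ⟨(hmem e he).1, (hmem e he).2.1, (hmem e he).2.2.1⟩) hnd hu
    (Nat.pow_le_pow_right (by norm_num) hlen)
  have h6 := crt_eq (X := 2 ^ j) (fun e he =>
    ⟨(hmem e he).1, (hmem e he).2.1, (hmem e he).2.2.2⟩) hnd hv
    (Nat.pow_le_pow_right (by norm_num) hlen)
  exact huv (h5.symm.trans h6)

/-! ### Few vectors correlate with a given one -/

theorem johnson {ι κ : Type} [DecidableEq κ] (X : Finset ι) (A : Finset κ) (W : ι → ℤ)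
    (s : κ → ι → ℤ) (hW : ∀ x ∈ X, W x ^ 2 = 1) (D e : ℕ) (hD : 1 ≤ D)
    (h1 : ∀ v ∈ A, (X.card : ℤ) ≤ D * ∑ x ∈ X, W x * s v x)
    (h2 : ∀ v ∈ A, ∑ x ∈ X, s v x * s v x = X.card)
    (h3 : ∀ u ∈ A, ∀ v ∈ A, u ≠ v → ∑ x ∈ X, s u x * s v x ≤ e)
    (he : 2 * D ^ 2 * e ≤ X.card) (hX : 0 < X.card) : A.card ≤ 2 * D ^ 2 := by
  classical
  set m : ℤ := ((X.card : ℕ) : ℤ) with hm
  set k : ℤ := ((A.card : ℕ) : ℤ) with hk
  set T : ι → ℤ := fun x => ∑ v ∈ A, s v x with hT
  have hm0 : 0 < m := by rw [hm]; exact_mod_cast hX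
  have hk0 : 0 ≤ k := by rw [hk]; positivity
  have hD0 : (1 : ℤ) ≤ D := by exact_mod_cast hD
  -- the correlation of `W` and `T`
  have h4 : k * m ≤ D * ∑ x ∈ X, W x * T x := by
    have e1 : ∑ x ∈ X, W x * T x = ∑ v ∈ A, ∑ x ∈ X, W x * s v x := by
      rw [Finset.sum_comm]
      refine Finset.sum_congr rfl fun x _ => ?_
      rw [hT, Finset.mul_sum]
    rw [e1, Finset.mul_sum]
    have h5 := Finset.sum_le_sum h1
    rw [Finset.sum_const, nsmul_eq_mul] at h5
    exact h5
  -- the norm of `T`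
  have h5 : ∑ x ∈ X, T x ^ 2 ≤ k * m + k ^ 2 * e := by
    have e1 : ∑ x ∈ X, T x ^ 2 = ∑ u ∈ A, ∑ v ∈ A, ∑ x ∈ X, s u x * s v x := by
      have e2 : ∀ x, T x ^ 2 = ∑ u ∈ A, ∑ v ∈ A, s u x * s v x := by
        intro x
        rw [hT, sq]
        simp only
        rw [Finset.sum_mul_sum]
      rw [Finset.sum_congr rfl fun x _ => e2 x, Finset.sum_comm]
      refine Finset.sum_congr rfl fun u _ => ?_
      rw [Finset.sum_comm]
    rw [e1]
    have h6 : ∀ u ∈ A, ∑ v ∈ A, ∑ x ∈ X, s u x * s v x ≤ m + k * e := by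
      intro u hu
      have h7 : ∀ v ∈ A, ∑ x ∈ X, s u x * s v x ≤ (if v = u then m else 0) + e := by
        intro v hv
        by_cases huv : v = u
        · subst huv
          rw [if_pos rfl, h2 v hv]
          have : (0 : ℤ) ≤ e := by positivity
          omega
        · rw [if_neg huv, zero_add]
          exact h3 u hu v hv (Ne.symm huv)
      have h8 := Finset.sum_le_sum h7
      rw [Finset.sum_add_distrib, Finset.sum_ite_eq' A u, if_pos hu, Finset.sum_const,
        nsmul_eq_mul] at h8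
      exact h8
    have h7 := Finset.sum_le_sum h6
    rw [Finset.sum_const, nsmul_eq_mul] at h7
    calc _ ≤ k * (m + k * e) := h7
      _ = k * m + k ^ 2 * e := by ring
  have h6 := Finset.sum_mul_sq_le_sq_mul_sq X W T
  have h7 : ∑ x ∈ X, W x ^ 2 = m := by
    rw [Finset.sum_congr rfl hW, Finset.sum_const, nsmul_eq_mul, mul_one]
  rw [h7] at h6
  -- combine
  set Z := ∑ x ∈ X, W x * T x with hZ
  have h8 : (k * m) ^ 2 ≤ D ^ 2 * (m * (k * m + k ^ 2 * e)) := by
    have h9 : 0 ≤ k * m := by positivity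
    calc (k * m) ^ 2 ≤ (D * Z) ^ 2 := pow_le_pow_left₀ h9 h4 2
      _ = D ^ 2 * Z ^ 2 := by ring
      _ ≤ D ^ 2 * (m * ∑ x ∈ X, T x ^ 2) := by gcongr
      _ ≤ D ^ 2 * (m * (k * m + k ^ 2 * e)) := by gcongr
  have he' : 2 * (D : ℤ) ^ 2 * e ≤ m := by rw [hm]; exact_mod_cast he
  rcases eq_or_lt_of_le hk0 with h9 | h9
  · have : A.card = 0 := by
      have h10 : (A.card : ℤ) = 0 := by rw [← hk]; exact h9.symm
      exact_mod_cast h10
    omega
  · -- divide by `k * m`
    have h10 : k * m ≤ D ^ 2 * (m + k * e) := by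
      have h11 : (k * m) * (k * m) ≤ (k * m) * (D ^ 2 * (m + k * e)) := by
        calc (k * m) * (k * m) = (k * m) ^ 2 := by ring
          _ ≤ D ^ 2 * (m * (k * m + k ^ 2 * e)) := h8
          _ = (k * m) * (D ^ 2 * (m + k * e)) := by ring
      exact le_of_mul_le_mul_left h11 (by positivity)
    have h12 : k * m ≤ 2 * D ^ 2 * m := by nlinarith
    have h13 : k ≤ 2 * D ^ 2 := le_of_mul_le_mul_right h12 hm0
    rw [hk] at h13
    exact_mod_cast h13

end Pool.Agent.H75C.FQ
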