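import Pool.Agent.NPC.Defs

/-!
# Lists of guesses for the truth values of many strings
-/

set_option autoImplicit false

namespace Pool.Agent.H75C.FQ

open Pool.Agent.NPC

open Classical in
/-- The number of positions `i` of the list `xs` of strings at which the string of booleans `b`
tells whether `xs[i]` belongs to `L` (missing booleans count as `false`). -/
noncomputable def agree (L : Set (List Bool)) (xs : List (List Bool)) (b : List Bool) : ℕ :=
  ((Finset.range xs.length).filter fun i => (b.getD i false = true ↔ xs.getD i [] ∈ L)).card

/-- A set `L` of bit strings is predictable on the lists with the property `T`: for some polynomial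
`p`, a function `f`, computable in polynomial time, gets (the code of) a list `xs` with the property
`T` of at least `p n` strings of length at most `n` and gives a list of guesses, each of them a
string of booleans, such that at least one of the guesses is right at `(1/2 + 1/(p n)) |xs|` or more
of the positions. -/
def Predictable (T : List (List Bool) → Prop) (L : Set (List Bool)) : Prop :=
  ∃ (p : Polynomial ℕ) (f : List Bool → List (List Bool)), PolyTime (fun x => bits (f x)) ∧
    ∀ (n : ℕ) (xs : List (List Bool)), T xs → (∀ x ∈ xs, x.length ≤ n) →
      p.eval n ≤ xs.length → ∃ b ∈ f (bits xs),
        (p.eval n + 2) * xs.length ≤ 2 * p.eval n * agree L xs b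

end Pool.Agent.H75C.FQ
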