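import Pool.Agent.H75C.FQ.Code

/-!
# The language of the digits of the code words
-/

set_option autoImplicit false

namespace Pool.Agent.H75C.FQ

open Pool.Agent.NPC Pool.Agent.Helper70K1.SP
open Pool.Agent.H623R2.PS (evq InPSPACE inPSPACE_of_evq)

/-- The digit `(q, r)` of the code word of `V`. -/
def cw (V q r : ℕ) : Bool := ip (V % q) r

/-- The predicate of a query. -/
def rhoF (Q : QryH) (V : ℕ) : Bool :=
  cw (V % 2 ^ (min Q.2.1 (Q.1.m * Q.1.m))) Q.2.2.1 Q.2.2.2

/-- The check for a query. -/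
def chkF (o : Option QryH) (u : List Bool) : Bool := o.elim false fun Q => chkG Q.1 (rhoF Q) u

/-- The language of the digits of the code words. -/
def LF : Set (List Bool) := {x | evq (qsH (unbits QryH x)) (chkF (unbits QryH x)) = true}

theorem mem_LF {I : Ins} (h : Wf I) (j q r : ℕ) :
    bits ((I, j, q, r) : QryH) ∈ LF ↔ ∃ V, Good I V ∧ cw (V % 2 ^ j) q r = true := by
  have h1 : ∀ V, Good I V → rhoF (I, j, q, r) V = cw (V % 2 ^ j) q r := by
    intro V hV
    unfold rhoF
    simp only
    rcases le_total j (I.m * I.m) with h2 | h2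
    · rw [min_eq_left h2]
    · rw [min_eq_right h2, Nat.mod_eq_of_lt hV.1, Nat.mod_eq_of_lt (lt_of_lt_of_le hV.1
        (Nat.pow_le_pow_right (by norm_num) h2))]
  have h2 : (∃ V, Good I V ∧ cw (V % 2 ^ j) q r = true) ↔
      ∃ V, Good I V ∧ rhoF (I, j, q, r) V = true := by
    constructor
    · rintro ⟨V, h3, h4⟩
      exact ⟨V, h3, by rw [h1 V h3]; exact h4⟩
    · rintro ⟨V, h3, h4⟩
      exact ⟨V, h3, by rw [← h1 V h3]; exact h4⟩
  rw [h2, ← chkG_iff h]
  change evq (qsH (unbits QryH (bits ((I, j, q, r) : QryH)))) (chkF (unbits QryH (bits ((I,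
    j, q, r) : QryH)))) = true ↔ _
  rw [unbits_bits]
  rfl

/-! ### Complexity -/

variable {α : Type} [TEnc α]

@[fun_prop]
theorem poly_ip {n r : α → ℕ} (hn : NPC.Poly n) (hr : NPC.Poly r) :
    NPC.Poly (fun a => ip (n a) (r a)) := by
  have h1 : NPC.Poly (fun a => List.range (n a).bits.length) :=
    (UPoly.length (NPC.Poly.natBits hn)).range
  have h2 : NPC.Poly (fun a => (List.range (n a).bits.length).filter fun i =>
      tb (n a) i && tb (r a) i) := by
    refine NPC.Poly.filter (p := fun a i => tb (n a) i && tb (r a) i) h1 ?_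
    fun_prop
  have h3 := NPC.Poly.length h2
  unfold ip
  exact NPC.Poly.dec_eq (NPC.Poly.mod h3 (NPC.Poly.const 2)) (NPC.Poly.const 1)

@[fun_prop]
theorem poly_cw {V q r : α → ℕ} (hV : NPC.Poly V) (hq : NPC.Poly q) (hr : NPC.Poly r) :
    NPC.Poly (fun a => cw (V a) (q a) (r a)) := by
  unfold cw
  fun_prop

theorem poly_rhoF : NPC.Poly (fun x : QryH × ℕ => rhoF x.1 x.2) := by
  unfold rhoF
  have h1 : UPoly (fun x : QryH × ℕ => x.1.1.m) := uPoly_m (by fun_prop)
  have h2 : UPoly (fun x : QryH × ℕ => min x.1.2.1 (x.1.1.m * x.1.1.m)) :=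
    UPoly.of_le (n := fun x : QryH × ℕ => x.1.1.m * x.1.1.m) (by fun_prop) (UPoly.mul h1 h1)
      fun x => min_le_right _ _
  have h3 := poly_pow2 h2
  fun_prop

theorem poly_chkF : NPC.Poly (fun x : Option QryH × List Bool => chkF x.1 x.2) := by
  unfold chkF
  refine NPC.Poly.optElim (o := fun x : Option QryH × List Bool => x.1) (g := fun _ => false)
    (h := fun x (Q : QryH) => chkG Q.1 (rhoF Q) x.2) (by fun_prop) (NPC.Poly.const _) ?_
  exact poly_chkG (I := fun x : (Option QryH × List Bool) × QryH => x.2.1)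
    (ρ := fun x => rhoF x.2) (u := fun x => x.1.2) (by fun_prop)
    (poly_rhoF.comp (f := fun x : ((Option QryH × List Bool) × QryH) × ℕ => (x.1.2, x.2))
      (by fun_prop)) (by fun_prop)

/-- The language of the digits of the code words is in polynomial space. -/
theorem inPSPACE_LF : InPSPACE LF := by
  refine inPSPACE_of_evq (init := unbits QryH) poly_unbits (qs := fun x => qsH (unbits QryH x))
    ?_ (φ := chkF) poly_chkF fun x => Iff.rfl
  exact poly_qsH.comp poly_unbits

end Pool.Agent.H75C.FQ
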