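import Pool.Agent.H75C.FQ.PolyA
import Pool.Agent.Helper70K1.SP.McMain

/-!
# Guesses better than one half and polynomial space
-/

set_option autoImplicit false

namespace Pool.Agent.H75C.FQ

open Pool.Agent.NPC Pool.Agent.Helper70K1.SP
open Pool.Agent.H623R2.PS (evq InPSPACE poly_replicate)
open Pool.Agent.H656R2.AK (evc QF QFwf qbf_hard)

/-! ### Parameters -/

/-- The bound for the size of the queries. -/
noncomputable def PN : Polynomial ℕ :=
  Polynomial.C 8 * Polynomial.X * Polynomial.X + Polynomial.C 100 * Polynomial.X +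
    Polynomial.C 200

/-- The inverse of the advantage. -/
noncomputable def PD (c : Polynomial ℕ) : Polynomial ℕ := c.comp PN + Polynomial.C 1

/-- The lower bound for the number of primes. -/
noncomputable def PX (c : Polynomial ℕ) : Polynomial ℕ :=
  Polynomial.C 2 * PD c ^ 2 * (Polynomial.X * Polynomial.X) + c.comp PN + Polynomial.C 1

/-- The upper bound for the primes. -/
noncomputable def PB (c : Polynomial ℕ) : Polynomial ℕ :=
  Polynomial.C 2 * (PX c + Polynomial.C 4) ^ 2 + Polynomial.C 1

/-- The upper bound for the number of places. -/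
noncomputable def PL (c : Polynomial ℕ) : Polynomial ℕ :=
  PB c * (Polynomial.C 2 * PB c + Polynomial.C 1)

/-- The upper bound for the number of guesses. -/
noncomputable def PR (rf : Polynomial ℕ) (c : Polynomial ℕ) : Polynomial ℕ :=
  rf.comp (PL c * (Polynomial.C 4 * PN + Polynomial.C 2) + Polynomial.C 1) + Polynomial.C 1

/-- The upper bound for the number of candidates. -/
noncomputable def PK (rf : Polynomial ℕ) (c : Polynomial ℕ) : Polynomial ℕ :=
  PR rf c * (Polynomial.C 2 * PD c ^ 2)

/-- The lower bound for the modulus. -/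
noncomputable def PM (rf : Polynomial ℕ) (c : Polynomial ℕ) : Polynomial ℕ :=
  PK rf c * PK rf c * Polynomial.X + Polynomial.X + Polynomial.C 2

/-- The upper bound for the modulus. -/
noncomputable def PU (rf : Polynomial ℕ) (c : Polynomial ℕ) : Polynomial ℕ :=
  Polynomial.C 2 * PM rf c + Polynomial.C 1

theorem PN_eval (m : ℕ) : PN.eval m = 8 * m * m + 100 * m + 200 := by
  simp [PN]

theorem PD_eval (c : Polynomial ℕ) (m : ℕ) : (PD c).eval m = c.eval (PN.eval m) + 1 := by
  simp [PD, Polynomial.eval_comp]

theorem PX_eval (c : Polynomial ℕ) (m : ℕ) : (PX c).eval m =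
    2 * (PD c).eval m ^ 2 * (m * m) + c.eval (PN.eval m) + 1 := by
  simp [PX, Polynomial.eval_comp]

theorem PB_eval (c : Polynomial ℕ) (m : ℕ) : (PB c).eval m = 2 * ((PX c).eval m + 4) ^ 2 + 1 := by
  simp [PB]

theorem one_le_PD (c : Polynomial ℕ) (m : ℕ) : 1 ≤ (PD c).eval m := by
  rw [PD_eval]
  omega

theorem primes_PB (c : Polynomial ℕ) (m : ℕ) :
    (PX c).eval m ≤ ((Finset.range ((PB c).eval m)).filter Nat.Prime).card := by
  rw [PB_eval]
  exact card_primes _

theorem primes_ok (c : Polynomial ℕ) (m : ℕ) : 2 * (PD c).eval m ^ 2 * (m * m) ≤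
    ((Finset.range ((PB c).eval m)).filter Nat.Prime).card := by
  have h1 := primes_PB c m
  rw [PX_eval] at h1
  omega

theorem primes_pos (c : Polynomial ℕ) (m : ℕ) :
    0 < ((Finset.range ((PB c).eval m)).filter Nat.Prime).card := by
  have h1 := primes_PB c m
  rw [PX_eval] at h1
  omega

/-- The number of binary digits of the bound for the primes. -/
noncomputable def lB (c : Polynomial ℕ) (m : ℕ) : ℕ := ((PB c).eval m).size

theorem PB_le (c : Polynomial ℕ) (m : ℕ) : (PB c).eval m ≤ 2 ^ lB c m := (Nat.lt_size_self _).le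

theorem two_pow_lB_le (c : Polynomial ℕ) (m : ℕ) : 2 ^ lB c m ≤ 2 * (PB c).eval m + 1 := two_pow_size_le _

theorem length_places_le (c : Polynomial ℕ) (m : ℕ) :
    (places ((PB c).eval m) (2 ^ lB c m)).length ≤ (PL c).eval m := by
  rw [length_places]
  have h1 : ((Finset.range ((PB c).eval m)).filter Nat.Prime).card ≤ (PB c).eval m :=
    (Finset.card_filter_le _ _).trans (by rw [Finset.card_range])
  refine (Nat.mul_le_mul h1 (two_pow_lB_le c m)).trans (le_of_eq ?_)
  simp [PL]

theorem le_length_places (c : Polynomial ℕ) (m : ℕ) :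
    c.eval (PN.eval m) ≤ (places ((PB c).eval m) (2 ^ lB c m)).length := by
  rw [length_places]
  have h1 := primes_PB c m
  rw [PX_eval] at h1
  have h2 : 1 ≤ 2 ^ lB c m := Nat.one_le_two_pow
  nlinarith

/-- The candidates. -/
noncomputable def cdF (f : List Bool → List (List Bool)) (c : Polynomial ℕ) (I : Ins) : List (List ℕ) :=
  ((listF f (fun j q r => bits ((I, j, q, r) : QryH)) (places ((PB c).eval I.m)
    (2 ^ lB c I.m)) ((PD c).eval I.m) (I.m * I.m)).map (cf I.m)).filter
      fun cs => cs.all fun a => decide (a ≤ I.p)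

theorem cdF_spec (f : List Bool → List (List Bool)) (c : Polynomial ℕ) (I : Ins) :
    ∀ cs ∈ cdF f c I, cs.length = I.m ∧ ∀ a ∈ cs, a ≤ I.p := by
  intro cs hcs
  rw [cdF, List.mem_filter, List.mem_map, List.all_eq_true] at hcs
  obtain ⟨⟨V, _, rfl⟩, h⟩ := hcs
  exact ⟨cf_length _ _, fun a ha => by simpa using h a ha⟩

theorem sz_queryF {m p : ℕ} {F : List (List (Bool × ℕ))} {os : List Op} {r : List ℕ}
    {i j q r' : ℕ} (hp : p < 2 ^ m) (hF : sz F ≤ m) (hos : sz os ≤ m) (hr : r.length ≤ m)
    (hr2 : ∀ a ∈ r, a ≤ p) (hi : i < m) (hj : j ≤ m * m) (hq : q < 2 ^ m) (hr' : r' < 2 ^ m) :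
    sz ((((List.replicate m (), p, F, os, r, i) : Ins), j, q, r') : QryH) ≤ PN.eval m := by
  have h3 : sz r ≤ m * (4 * m + 2) + 1 := by
    refine (sz_le_length_mul r (4 * m + 1) fun a ha => sz_lt_two_pow (by
      have := hr2 a ha
      omega)).trans ?_
    exact Nat.add_le_add_right (Nat.mul_le_mul_right _ hr) _
  have h4 := sz_lt_two_pow (a := i) (m := m) (hi.trans Nat.lt_two_pow_self)
  have h5 := sz_lt_two_pow hp
  have h6 : sz j ≤ 4 * (m * m) + 1 := by
    have h7 := sz_nat_le j
    have h8 := Poly.size_le_self j
    omega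
  have h7 := sz_lt_two_pow hq
  have h8 := sz_lt_two_pow hr'
  simp only [sz_pair, sz_replicate, PN_eval] at *
  nlinarith

theorem length_guesses {f : List Bool → List (List Bool)} {rf : Polynomial ℕ}
    (hrf : ∀ x : List (List Bool), (f (bits x)).length ≤ rf.eval (sz x)) {c : Polynomial ℕ} {m : ℕ}
    {qb : ℕ → ℕ → List Bool}
    (h : ∀ e ∈ places ((PB c).eval m) (2 ^ lB c m), (qb e.1 e.2).length ≤ PN.eval m) :
    (f (bits ((places ((PB c).eval m) (2 ^ lB c m)).map fun e => qb e.1 e.2))).length ≤
      (PR rf c).eval m := by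
  have h1 : sz ((places ((PB c).eval m) (2 ^ lB c m)).map fun e => qb e.1 e.2) ≤
      (PL c).eval m * (4 * PN.eval m + 2) + 1 := by
    refine (sz_le_length_mul _ (4 * PN.eval m + 1) fun y hy => ?_).trans ?_
    · obtain ⟨e, he, rfl⟩ := List.mem_map.1 hy
      have h2 := sz_listBool_le (qb e.1 e.2)
      have h3 := h e he
      omega
    · rw [List.length_map]
      exact Nat.add_le_add_right (Nat.mul_le_mul_right _ (length_places_le c m)) _
  refine (hrf _).trans ((eval_mono rf h1).trans ?_)
  simp [PR, Polynomial.eval_comp]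

theorem collapse {L : Set (List Bool)} (h : Predictable List.Nodup LF) (hL : InPSPACE L) :
    InP L := by
  classical
  obtain ⟨c, f, hf, hmc⟩ := h
  obtain ⟨g, hg, hgwf, hgL⟩ := qbf_hard hL
  -- the number of guesses
  obtain ⟨rf, hrf⟩ := (poly_askG (γ := List (List Bool)) hf (Q := fun x : List (List Bool) => x)
    NPC.Poly.id).sz_le
  have hrf' : ∀ x : List (List Bool), (f (bits x)).length ≤ rf.eval (sz x) := fun x => by
    have h1 := hrf x
    have h2 := length_lt_sz (f (bits x))
    omega
  -- the size parameter
  have hbig : NPC.Poly (fun x : List Bool => ((g x).2, (opsQ (g x).1.length 0 (g x).1,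
      (g x).1))) := by
    have h1 : NPC.Poly (fun x : List Bool => (g x).1) := NPC.Poly.fst hg
    have h2 := poly_opsQ h1
    fun_prop
  obtain ⟨r1, hr1⟩ := hbig.sz_le
  obtain ⟨c0, hc0⟩ := poly_lt_two_pow (PU rf c + (Polynomial.C 2 * PB c + Polynomial.C 1))
  set mm : List Bool → ℕ := fun x => r1.eval (4 * x.length + 1) + 10 + c0 with hmm
  have hmmU : UPoly mm := by
    refine UPoly.add (UPoly.add ?_ (UPoly.const 10)) (UPoly.const c0)
    exact (UPoly.add (UPoly.mul (UPoly.const 4) (UPoly.length NPC.Poly.id))
      (UPoly.const 1)).eval r1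
  set pp : List Bool → ℕ := fun x => findP ((PM rf c).eval (mm x)) - 1 with hpp
  have hppP : NPC.Poly pp := by
    have := poly_findP (hmmU.eval (PM rf c))
    fun_prop
  set WW : List Bool → List Unit := fun x => List.replicate (mm x) () with hWW
  have hWWP : NPC.Poly WW := hmmU
  have hWWl : ∀ x, (WW x).length = mm x := fun x => by rw [hWW]; simp
  set rr : List Bool → List ℕ := fun x => List.replicate (g x).1.length 0 with hrr
  have hrrP : NPC.Poly rr := poly_replicate (UPoly.length (NPC.Poly.fst hg)) 0
  set dec : List Bool → Bool := fun x => decide (runG (pp x) ((PU rf c).eval (mm x))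
    (fun r => leafN (pp x) (g x).2 r) (fun o y u w => combN (pp x) o y u w)
    (fun os r i => cdF f c (WW x, pp x, (g x).2, os, r, i)) (opsQ (g x).1.length 0 (g x).1)
      (rr x) % (pp x + 1) = 1) with hdec
  have hdecP : NPC.Poly dec := by
    have hI : NPC.Poly (fun x : List Bool × List Op × List ℕ × ℕ =>
        ((WW x.1, pp x.1, (g x.1).2, x.2.1, x.2.2.1, x.2.2.2) : Ins)) := by
      have := hWWP.comp (f := fun x : List Bool × List Op × List ℕ × ℕ => x.1)
        (NPC.Poly.fst NPC.Poly.id)
      fun_prop
    have hcdP : NPC.Poly (fun x : List Bool × List Op × List ℕ × ℕ =>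
        cdF f c (WW x.1, pp x.1, (g x.1).2, x.2.1, x.2.2.1, x.2.2.2)) := by
      unfold cdF
      refine NPC.Poly.filter (p := fun (x : List Bool × List Op × List ℕ × ℕ) cs =>
        cs.all fun a => decide (a ≤ Ins.p (WW x.1, pp x.1, (g x.1).2, x.2.1, x.2.2.1, x.2.2.2)))
        (NPC.Poly.map (F := fun (x : List Bool × List Op × List ℕ × ℕ) V =>
          cf (Ins.m (WW x.1, pp x.1, (g x.1).2, x.2.1, x.2.2.1, x.2.2.2)) V) ?_ ?_) ?_
      · have hBU := (uPoly_m hI).eval (PB c)
        refine poly_listF hf (qb := fun (x : List Bool × List Op × List ℕ × ℕ) j q r =>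
          bits (((WW x.1, pp x.1, (g x.1).2, x.2.1, x.2.2.1, x.2.2.2), j, q, r) : QryH)) ?_
          (l := fun x => lB c (Ins.m (WW x.1, pp x.1, (g x.1).2, x.2.1, x.2.2.1, x.2.2.2)))
          hBU ?_ ((uPoly_m hI).eval (PD c)) (UPoly.mul (uPoly_m hI) (uPoly_m hI))
          (fun a => PB_le c _) (fun a => one_le_PD c _) (fun a => primes_ok c _)
          (fun a => primes_pos c _)
        · refine poly_bits ?_
          exact NPC.Poly.pair (hI.comp (f := fun x : (List Bool × List Op × List ℕ × ℕ) ×
            ℕ × ℕ × ℕ => x.1) (NPC.Poly.fst NPC.Poly.id)) (NPC.Poly.snd NPC.Poly.id)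
        · refine UPoly.of_le (poly_pow2 (upoly_size hBU))
            (UPoly.add (UPoly.mul (UPoly.const 2) hBU) (UPoly.const 1)) fun a => ?_
          exact two_pow_lB_le c _
      · exact poly_cf ((uPoly_m hI).comp (NPC.Poly.fst NPC.Poly.id)) (NPC.Poly.snd NPC.Poly.id)
      · have h1 := (poly_p hI).comp (f := fun x : (List Bool × List Op × List ℕ × ℕ) ×
          List ℕ => x.1) (NPC.Poly.fst NPC.Poly.id)
        fun_prop
    have hF : NPC.Poly (fun x : List Bool => (g x).2) := NPC.Poly.snd hg
    have h1 := poly_runG (p := pp) (D := fun x => (PU rf c).eval (mm x))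
      (lv := fun x r => leafN (pp x) (g x).2 r) (cm := fun x o y u w => combN (pp x) o y u w)
      (cd := fun x os r i => cdF f c (WW x, pp x, (g x).2, os, r, i)) hppP
      (hmmU.eval (PU rf c)) hcdP (by
        exact poly_leafN (p := fun x : List Bool × List ℕ => pp x.1) (F := fun x => (g x.1).2)
          (r := fun x => x.2) (by fun_prop) (by fun_prop) (by fun_prop))
      (fun x r => leafN_le _ _ _) (by
        exact poly_combN (p := fun x : List Bool × Option Bool × ℕ × ℕ × ℕ => pp x.1)
          (x := fun x => x.2.2.1) (u := fun x => x.2.2.2.1) (w := fun x => x.2.2.2.2)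
          (o := fun x => x.2.1) (by fun_prop) (by fun_prop) (by fun_prop) (by fun_prop)
          (by fun_prop))
      (fun x o y u w => (combN_le _ _ _ _ _).trans (Nat.le_succ _))
      (os := fun x => opsQ (g x).1.length 0 (g x).1) (r := rr)
      (poly_opsQ (NPC.Poly.fst hg)) hrrP
    exact NPC.Poly.dec_eq (NPC.Poly.mod h1 (by fun_prop)) (NPC.Poly.const 1)
  refine ⟨fun x => [dec x], polyTime_of_poly hdecP, fun x => ?_⟩
  -- correctness
  set m := mm x with hm
  have hsz : sz (g x).2 + sz (opsQ (g x).1.length 0 (g x).1) + sz (g x).1 + 10 + c0 ≤ m := by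
    have h1 := hr1 x
    have h2 := sz_listBool_le x
    have h3 := eval_mono r1 h2
    simp only [sz_pair] at h1
    rw [hm, hmm]
    simp only
    omega
  have hn : (g x).1.length < sz (g x).1 := length_lt_sz _
  have hpow := hc0 m (by omega)
  rw [Polynomial.eval_add] at hpow
  have hpow2 : 2 * (PB c).eval m + 1 < 2 ^ m := by
    have h1 : (Polynomial.C 2 * PB c + Polynomial.C 1 : Polynomial ℕ).eval m =
      2 * (PB c).eval m + 1 := by simp
    omega
  have hfp := findP_spec (M := (PM rf c).eval m) (by simp [PM])
  have hpx : pp x = findP ((PM rf c).eval m) - 1 := rfl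
  have hPM : (PM rf c).eval m = (PK rf c).eval m * (PK rf c).eval m * m + m + 2 := by
    simp [PM]
  have hPU : (PU rf c).eval m = 2 * (PM rf c).eval m + 1 := by simp [PU]
  have hp1 : pp x + 1 = findP ((PM rf c).eval m) := by omega
  have hprime : Fact (pp x + 1).Prime := ⟨by rw [hp1]; exact hfp.1⟩
  set p := pp x with hp
  have hpm : p < 2 ^ m := by omega
  have hdegleaf : (((g x).2).map List.length).sum + 2 < m := by
    have key : ∀ F : List (List (Bool × ℕ)), (F.map List.length).sum + 1 ≤ sz F := by
      intro F
      induction F with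
      | nil => simp
      | cons c F ih =>
        have := length_lt_sz c
        simp only [List.map_cons, List.sum_cons, sz_list_cons]
        omega
    have := key (g x).2
    omega
  have hrc := runG_correct (p := p) (D := (PU rf c).eval m) (m := m) (n := (g x).1.length)
    (K := (PK rf c).eval m) (lv := fun r => leafN p (g x).2 r)
    (cm := fun o y u w => combN p o y u w)
    (cd := fun os r i => cdF f c (WW x, p, (g x).2, os, r, i))
    (vf := val (leafC (g x).2)) (os0 := opsQ (g x).1.length 0 (g x).1) (by omega) (by omega)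
    (by omega) (opsQ_idx _ _ _ (by omega)) (fun r _ _ => cast_leafN p (g x).2 r) ?_ ?_
    (opsQ (g x).1.length 0 (g x).1) (rr x) List.suffix_rfl (by rw [hrr]; simp) (by
      intro a ha
      rw [hrr] at ha
      simp only at ha
      rw [List.eq_of_mem_replicate ha]
      exact Nat.zero_le _)
  · -- the final equivalence
    rw [hgL x]
    have e1 : pt p (rr x) = fun _ => (0 : ZMod (p + 1)) := by
      funext i
      unfold pt
      rw [hrr]
      simp only
      by_cases hi : i < (g x).1.length
      · rw [List.getD_eq_getElem _ _ (by simpa using hi)]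
        simp
      · rw [List.getD_eq_getElem?_getD, List.getElem?_eq_none (by simpa using hi)]
        simp
    rw [e1, val_ops] at hrc
    have h2 : ∀ y : ℕ, y % (p + 1) = 1 ↔ (y : ZMod (p + 1)) = 1 := by
      intro y
      have h3 := ZMod.natCast_eq_natCast_iff' y 1 (p + 1)
      rw [Nat.mod_eq_of_lt (a := 1) (by have := hprime.out.one_lt; omega), Nat.cast_one] at h3
      exact h3.symm
    simp only [List.cons.injEq, and_true, hdec, decide_eq_true_eq]
    rw [h2, hrc]
    unfold bit
    split_ifs with hb
    · simp [hb]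
    · simp [hb]
  · -- the combinations
    rintro ⟨o, i⟩ os r u w hrl hra hi hu hw
    simp only
    rw [cast_combN, hu, hw]
    rfl
  · -- the candidates
    intro os r i hos hne hrl hra hi
    set I : Ins := (WW x, p, (g x).2, os, r, i) with hI
    have hIm : I.m = m := by
      change (WW x).length = m
      rw [hWWl]
    have hIp : I.p = p := rfl
    have hW : WW x = List.replicate m () := rfl
    have hwf : Wf I := ⟨by rw [hIm]; exact hpm, by
      change i < r.length
      omega, fun o ho => by
      change o.2 < r.length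
      rw [hrl]
      exact opsQ_idx _ _ 0 (by omega) o (hos.subset ho)⟩
    have hprime' : Fact (I.p + 1).Prime := hprime
    obtain ⟨V, hV⟩ := good_exists (I := I) (by rw [hIm]; exact hpm)
      (allDeg_suffix (R := ZMod (p + 1)) (d := (((g x).2).map List.length).sum + 2)
        (by omega) (fun i _ => (degLE_leafC (g x).2 i).mono (by omega)) _ _ os hos i hi)
      (by rw [hIm]; exact hdegleaf)
    -- the size of the queries
    have hsize : ∀ j ≤ m * m, ∀ e ∈ places ((PB c).eval m) (2 ^ lB c m),
        (bits ((I, j, e.1, e.2) : QryH)).length ≤ PN.eval m := by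
      intro j hj e he
      rw [mem_places] at he
      have h1 := two_pow_lB_le c m
      rw [bits_length, hI, hW]
      exact sz_queryF hpm (by omega) ((sz_suffix hos).trans (by omega)) (by omega) hra
        (by omega) hj (by omega) (by omega)
    refine ⟨?_, ?_, cf I.m V, ?_, hV.2.2⟩
    · unfold cdF
      refine (List.length_filter_le _ _).trans ?_
      rw [List.length_map, hIm]
      refine (length_listF (R := (PR rf c).eval m) (PB_le c m) (one_le_PD c m)
        (primes_ok c m) (primes_pos c m) (by simp [PR]) (fun j hj => ?_) _ le_rfl).trans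
        (le_of_eq ?_)
      · exact length_guesses hrf' (qb := fun q r => bits ((I, j, q, r) : QryH)) (hsize j hj)
      · simp [PK]
    · intro cs hcs
      have h1 := cdF_spec f c I cs hcs
      rw [hIm, hIp] at h1
      exact h1
    · unfold cdF
      rw [List.mem_filter, List.mem_map, List.all_eq_true]
      refine ⟨⟨V, ?_, rfl⟩, fun a ha => by simpa using hV.2.1 a ha⟩
      have h1 := mem_listF (f := f) (qb := fun j q r => bits ((I, j, q, r) : QryH))
        (P := places ((PB c).eval I.m) (2 ^ lB c I.m)) (D := (PD c).eval I.m) (L := LF)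
        (V := V) (μ := I.m * I.m) ?_ ?_ (I.m * I.m) le_rfl
      · rwa [Nat.mod_eq_of_lt hV.1] at h1
      · intro j _ e _
        rw [mem_LF hwf]
        constructor
        · rintro ⟨V', h1, h2⟩
          rwa [good_unique (I := I) (by rw [hIm, hIp]; omega) hV h1]
        · intro h1
          exact ⟨V, hV, h1⟩
      · intro j hj
        rw [hIm] at hj ⊢
        have h0 := hmc (PN.eval m) ((places ((PB c).eval m) (2 ^ lB c m)).map fun e =>
          bits ((I, j, e.1, e.2) : QryH)) ?_ ?_ ?_
        · obtain ⟨b, hb, h1⟩ := h0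
          refine ⟨b, hb, ?_⟩
          rw [List.length_map] at h1
          rw [PD_eval]
          exact h1.trans (Nat.mul_le_mul_right _ (Nat.mul_le_mul_left _ (Nat.le_succ _)))
        · refine (nodup_places _ _).map fun e e' hee => ?_
          have h2 := bits_injective hee
          simp only [Prod.mk.injEq, true_and] at h2
          exact Prod.ext h2.1 h2.2
        · intro y hy
          obtain ⟨e, he, rfl⟩ := List.mem_map.1 hy
          exact hsize j hj e he
        · rw [List.length_map]
          exact le_length_places c m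

theorem predictable_of_inP {T : List (List Bool) → Prop} {L : Set (List Bool)} (h : InP L) :
    Predictable T L := by
  classical
  obtain ⟨V, hV, hVL⟩ := h
  have h1 : NPC.Poly (fun x : List Bool => (unbits (List (List Bool)) x).getD []) :=
    NPC.Poly.optGetD poly_unbits (NPC.Poly.const _)
  have h2 : NPC.Poly (fun x : List Bool => [((unbits (List (List Bool)) x).getD []).map
      fun y => decide (V y = [true])]) := by
    refine NPC.Poly.cons (NPC.Poly.map (F := fun _ y => decide (V y = [true])) h1 ?_)
      (NPC.Poly.const _)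
    have h3 : NPC.Poly (fun x : List Bool × List Bool => V x.2) :=
      (poly_of_polyTime hV).comp (NPC.Poly.snd NPC.Poly.id)
    exact NPC.Poly.dec_eq h3 (NPC.Poly.const [true])
  have h3 : PolyTime (fun x : List Bool => bits [((unbits (List (List Bool)) x).getD []).map
      fun y => decide (V y = [true])]) := polyTime_of_typed (poly_bits h2)
  refine ⟨Polynomial.C 2, _, h3, fun n xs _ _ _ => ⟨_, List.mem_singleton.2 rfl, ?_⟩⟩
  rw [unbits_bits, Option.getD_some]
  have h4 : agree L xs (xs.map fun y => decide (V y = [true])) = xs.length := by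
    unfold agree
    rw [Finset.filter_true_of_mem, Finset.card_range]
    intro i hi
    rw [Finset.mem_range] at hi
    rw [List.getD_eq_getElem _ _ (by rwa [List.length_map]), List.getD_eq_getElem _ _ hi,
      List.getElem_map, decide_eq_true_eq]
    exact (hVL _).symm
  rw [h4]
  simp

theorem Predictable.mono {T T' : List (List Bool) → Prop} {L : Set (List Bool)}
    (h : Predictable T L) (hT : ∀ xs, T' xs → T xs) : Predictable T' L := by
  obtain ⟨p, f, hf, h1⟩ := h
  exact ⟨p, f, hf, fun n xs hxs => h1 n xs (hT xs hxs)⟩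

/-- Predictability (on all lists) passes to languages that reduce to the given one. -/
theorem Predictable.reduces {L A : Set (List Bool)} (hr : Reduces L A)
    (h : Predictable (fun _ => True) A) : Predictable (fun _ => True) L := by
  classical
  obtain ⟨g, hg, hgL⟩ := hr
  obtain ⟨p, f, hf, h1⟩ := h
  have hgP : NPC.Poly g := poly_of_polyTime hg
  obtain ⟨q, hq⟩ := hgP.sz_le
  set q' : Polynomial ℕ := q.comp (Polynomial.C 4 * Polynomial.X + Polynomial.C 1) with hq'
  have hlen : ∀ (n : ℕ) (x : List Bool), x.length ≤ n → (g x).length ≤ q'.eval n := by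
    intro n x hx
    have h2 := hq x
    have h3 := sz_listBool_ge (g x)
    have h4 := sz_listBool_le x
    have h5 := eval_mono q (m := sz x) (n := 4 * n + 1) (by omega)
    have h6 : q'.eval n = q.eval (4 * n + 1) := by simp [hq', Polynomial.eval_comp]
    rw [h6]
    omega
  have h2 : NPC.Poly (fun x : List Bool => ((unbits (List (List Bool)) x).getD []).map g) := by
    refine NPC.Poly.map (F := fun _ y => g y)
      (NPC.Poly.optGetD poly_unbits (NPC.Poly.const _)) ?_
    exact hgP.comp (NPC.Poly.snd NPC.Poly.id)
  refine ⟨p.comp q', fun x => f (bits (((unbits (List (List Bool)) x).getD []).map g)),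
    polyTime_of_typed (poly_bits (poly_askG hf h2)), fun n xs _ hx hp => ?_⟩
  simp only [unbits_bits, Option.getD_some]
  obtain ⟨b, hb, h3⟩ := h1 (q'.eval n) (xs.map g) trivial (by
    intro y hy
    obtain ⟨x, hx', rfl⟩ := List.mem_map.1 hy
    exact hlen n x (hx x hx')) (by rwa [List.length_map, ← Polynomial.eval_comp])
  refine ⟨b, hb, ?_⟩
  have h4 : agree A (xs.map g) b = agree L xs b := by
    unfold agree
    rw [List.length_map]
    congr 1
    ext i
    simp only [Finset.mem_filter, Finset.mem_range]
    refine and_congr_right fun hi => ?_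
    rw [List.getD_eq_getElem (l := xs.map g) _ (by rwa [List.length_map]),
      List.getD_eq_getElem _ _ hi, List.getElem_map, ← hgL]
  rw [h4, List.length_map, ← Polynomial.eval_comp] at h3
  exact h3

/-- The constant guesses. -/
theorem half_trivial : ∃ f : List Bool → List (List Bool), PolyTime (fun x => bits (f x)) ∧
    ∀ (L : Set (List Bool)) (xs : List (List Bool)), ∃ b ∈ f (bits xs),
      xs.length ≤ 2 * agree L xs b := by
  classical
  have h1 : NPC.Poly (fun x : List Bool => (unbits (List (List Bool)) x).getD []) :=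
    NPC.Poly.optGetD poly_unbits (NPC.Poly.const _)
  have h2 : NPC.Poly (fun x : List Bool => ([[], ((unbits (List (List Bool)) x).getD []).map
      fun _ => true] : List (List Bool))) := by
    refine NPC.Poly.cons (NPC.Poly.const _) (NPC.Poly.cons ?_ (NPC.Poly.const _))
    exact NPC.Poly.map (F := fun _ _ => true) h1 (NPC.Poly.const _)
  refine ⟨_, polyTime_of_typed (poly_bits h2), fun L xs => ?_⟩
  rw [unbits_bits, Option.getD_some]
  have h3 : agree L xs [] + agree L xs (xs.map fun _ => true) = xs.length := by
    have h4 := Finset.card_filter_add_card_filter_not (s := Finset.range xs.length)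
      (fun i => xs.getD i [] ∉ L)
    rw [Finset.card_range] at h4
    rw [← h4]
    unfold agree
    congr 2
    · ext i
      simp
    · ext i
      simp only [Finset.mem_filter, Finset.mem_range, not_not]
      refine and_congr_right fun hi => ?_
      rw [List.getD_eq_getElem (l := xs.map fun _ => true) _ (by rwa [List.length_map])]
      simp
  rcases le_total (agree L xs []) (agree L xs (xs.map fun _ => true)) with h4 | h4
  · exact ⟨_, List.mem_cons_of_mem _ (List.mem_singleton.2 rfl), by omega⟩
  · exact ⟨_, List.mem_cons_self, by omega⟩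

end Pool.Agent.H75C.FQ
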