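import Pool.Agent.H75C.FQ.Prune
import Pool.Agent.Helper70K1.SP.McPoly

/-!
# Complexity of the pruning algorithm
-/

set_option autoImplicit false

namespace Pool.Agent.H75C.FQ

open Pool.Agent.NPC Pool.Agent.Helper70K1.SP

variable {α β γ : Type} [TEnc α] [TEnc β] [TEnc γ]

/-- A polynomial-time function on bit strings, applied to codes. -/
theorem poly_askG {f : List Bool → β} (hf : PolyTime (fun x => bits (f x))) {Q : α → γ}
    (hQ : NPC.Poly Q) : NPC.Poly (fun a => f (bits (Q a))) := by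
  have h1 : PC (id : List Bool → List Bool) (id : List Bool → List Bool) (fun x => bits (f x)) :=
    H642R2.TMSim.polyTime_toPC hf
  have h2 : PC (bits : γ → List Bool) (id : List Bool → List Bool) (fun Q => bits Q) := by
    obtain ⟨c, q, h⟩ := (PC.id : PC (bits : γ → List Bool) (bits : γ → List Bool) fun a => a)
    exact ⟨c, q, h⟩
  have h3 : PC (bits : γ → List Bool) (id : List Bool → List Bool)
      (fun Q => bits (f (bits Q))) :=
    PC.comp (g := fun x => bits (f x)) (f := fun Q : γ => bits Q) h1 h2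
  have h4 : NPC.Poly (fun Q : γ => f (bits Q)) := h3
  exact h4.comp hQ

theorem poly_places {B M : α → ℕ} (hB : UPoly B) (hM : UPoly M) :
    NPC.Poly (fun a => places (B a) (M a)) := by
  unfold places
  refine NPC.R671.poly_product (NPC.Poly.filter (p := fun a q => primeN (B a) q) hB.range ?_)
    hM.range
  exact poly_primeN (hB.comp (NPC.Poly.fst NPC.Poly.id)) (NPC.Poly.snd NPC.Poly.id)

theorem poly_cnt {P : α → List (ℕ × ℕ)} {b : α → List Bool} {v : α → ℕ} (hP : NPC.Poly P)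
    (hb : NPC.Poly b) (hv : NPC.Poly v) : NPC.Poly (fun a => cnt (P a) (b a) (v a)) := by
  unfold cnt
  refine NPC.Poly.length (NPC.Poly.filter (p := fun a i => decide ((b a).getD i false =
    cw (v a) ((P a).getD i (0, 0)).1 ((P a).getD i (0, 0)).2)) (UPoly.length hP).range ?_)
  have h1 : NPC.Poly (fun x : α × ℕ => (P x.1).getD x.2 (0, 0)) :=
    NPC.Poly.getD (hP.comp (NPC.Poly.fst NPC.Poly.id)) (NPC.Poly.snd NPC.Poly.id)
      (NPC.Poly.const _)
  have h2 : NPC.Poly (fun x : α × ℕ => (b x.1).getD x.2 false) :=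
    NPC.Poly.getD (hb.comp (NPC.Poly.fst NPC.Poly.id)) (NPC.Poly.snd NPC.Poly.id)
      (NPC.Poly.const _)
  exact NPC.Poly.dec_eq h2 (poly_cw (hv.comp (NPC.Poly.fst NPC.Poly.id)) (NPC.Poly.fst h1)
    (NPC.Poly.snd h1))

theorem poly_queries {qb : α → ℕ → ℕ → ℕ → List Bool}
    (hqb : NPC.Poly (fun x : α × ℕ × ℕ × ℕ => qb x.1 x.2.1 x.2.2.1 x.2.2.2))
    {P : α → List (ℕ × ℕ)} {j : α → ℕ} (hP : NPC.Poly P) (hj : NPC.Poly j) :
    NPC.Poly (fun a => (P a).map fun e => qb a (j a) e.1 e.2) := by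
  refine NPC.Poly.map (F := fun a (e : ℕ × ℕ) => qb a (j a) e.1 e.2) hP ?_
  exact hqb.comp (f := fun y : α × ℕ × ℕ => (y.1, j y.1, y.2.1, y.2.2)) (by fun_prop)

theorem poly_keepF {f : List Bool → List (List Bool)} (hf : PolyTime (fun x => bits (f x)))
    {qb : α → ℕ → ℕ → ℕ → List Bool}
    (hqb : NPC.Poly (fun x : α × ℕ × ℕ × ℕ => qb x.1 x.2.1 x.2.2.1 x.2.2.2))
    {P : α → List (ℕ × ℕ)} {D j v : α → ℕ} (hP : NPC.Poly P) (hD : NPC.Poly D)
    (hj : NPC.Poly j) (hv : NPC.Poly v) :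
    NPC.Poly (fun a => keepF f (qb a) (P a) (D a) (j a) (v a)) := by
  unfold keepF
  refine NPC.Poly.any (p := fun a (b : List Bool) => decide ((D a + 1) * (P a).length ≤
    2 * D a * cnt (P a) b (v a))) (poly_askG hf (poly_queries hqb hP hj)) ?_
  have h1 : NPC.Poly (fun x : α × List Bool => cnt (P x.1) x.2 (v x.1)) :=
    poly_cnt (hP.comp (NPC.Poly.fst NPC.Poly.id)) (NPC.Poly.snd NPC.Poly.id)
      (hv.comp (NPC.Poly.fst NPC.Poly.id))
  have h2 : NPC.Poly (fun x : α × List Bool => (P x.1).length) :=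
    NPC.Poly.length (hP.comp (NPC.Poly.fst NPC.Poly.id))
  have h3 : NPC.Poly (fun x : α × List Bool => D x.1) := hD.comp (NPC.Poly.fst NPC.Poly.id)
  fun_prop

/-- One more digit, with a bounded number of digits. -/
def stepF' (f : List Bool → List (List Bool)) (qb : ℕ → ℕ → ℕ → List Bool) (P : List (ℕ × ℕ))
    (D μ j : ℕ) (A : List ℕ) : List ℕ :=
  (A ++ A.map fun v => v + 2 ^ (min j μ)).filter (keepF f qb P D (j + 1))

theorem foldl_stepF' (f : List Bool → List (List Bool)) (qb : ℕ → ℕ → ℕ → List Bool)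
    (P : List (ℕ × ℕ)) (D μ : ℕ) :
    ∀ n ≤ μ, (List.range n).foldl (fun A j => stepF' f qb P D μ j A) [0] = listF f qb P D n
  | 0, _ => rfl
  | n + 1, h => by
    rw [List.range_succ, List.foldl_append, foldl_stepF' f qb P D μ n (by omega), listF]
    simp only [List.foldl_cons, List.foldl_nil, stepF', stepF]
    rw [min_eq_left (by omega)]

theorem poly_stepF' {f : List Bool → List (List Bool)} (hf : PolyTime (fun x => bits (f x)))
    {qb : α → ℕ → ℕ → ℕ → List Bool}
    (hqb : NPC.Poly (fun x : α × ℕ × ℕ × ℕ => qb x.1 x.2.1 x.2.2.1 x.2.2.2))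
    {P : α → List (ℕ × ℕ)} {D μ j : α → ℕ} (hP : NPC.Poly P) (hD : NPC.Poly D) (hμ : UPoly μ)
    {A : α → List ℕ} (hj : NPC.Poly j) (hA : NPC.Poly A) :
    NPC.Poly (fun a => stepF' f (qb a) (P a) (D a) (μ a) (j a) (A a)) := by
  have h1 : UPoly (fun a => min (j a) (μ a)) :=
    UPoly.of_le (by
      have := hμ.toPoly
      fun_prop) hμ fun a => min_le_right _ _
  have h2 := poly_pow2 h1
  have h3 : NPC.Poly (fun a => A a ++ (A a).map fun v => v + 2 ^ (min (j a) (μ a))) := by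
    refine NPC.Poly.append hA (NPC.Poly.map (F := fun a v => v + 2 ^ (min (j a) (μ a))) hA ?_)
    exact NPC.Poly.add (NPC.Poly.snd NPC.Poly.id) (h2.comp (NPC.Poly.fst NPC.Poly.id))
  unfold stepF'
  refine NPC.Poly.filter (p := fun a v => keepF f (qb a) (P a) (D a) (j a + 1) v) h3 ?_
  exact poly_keepF hf (qb := fun x : α × ℕ => qb x.1) (hqb.comp
    (f := fun x : (α × ℕ) × ℕ × ℕ × ℕ => (x.1.1, x.2)) (by fun_prop))
    (hP.comp (NPC.Poly.fst NPC.Poly.id)) (hD.comp (NPC.Poly.fst NPC.Poly.id))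
    (j := fun x => j x.1 + 1) (v := fun x => x.2) (by fun_prop) (by fun_prop)

theorem poly_listF {f : List Bool → List (List Bool)} (hf : PolyTime (fun x => bits (f x)))
    {qb : α → ℕ → ℕ → ℕ → List Bool}
    (hqb : NPC.Poly (fun x : α × ℕ × ℕ × ℕ => qb x.1 x.2.1 x.2.2.1 x.2.2.2))
    {B l D μ : α → ℕ} (hB : UPoly B) (hl2 : UPoly (fun a => 2 ^ l a)) (hD : UPoly D)
    (hμ : UPoly μ) (h1 : ∀ a, B a ≤ 2 ^ l a) (h2 : ∀ a, 1 ≤ D a)
    (h3 : ∀ a, 2 * D a ^ 2 * μ a ≤ ((Finset.range (B a)).filter Nat.Prime).card)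
    (h4 : ∀ a, 0 < ((Finset.range (B a)).filter Nat.Prime).card) :
    NPC.Poly (fun a => listF f (qb a) (places (B a) (2 ^ l a)) (D a) (μ a)) := by
  have hP := poly_places hB hl2
  obtain ⟨r1, hr1⟩ := upoly_bound hμ
  obtain ⟨r2, hr2⟩ := upoly_bound hD
  -- the number of guesses
  have hq : NPC.Poly (fun x : α × ℕ =>
      f (bits ((places (B x.1) (2 ^ l x.1)).map fun e => qb x.1 x.2 e.1 e.2))) :=
    poly_askG hf (poly_queries (qb := fun x : α × ℕ => qb x.1) (hqb.comp
      (f := fun x : (α × ℕ) × ℕ × ℕ × ℕ => (x.1.1, x.2)) (by fun_prop))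
      (hP.comp (NPC.Poly.fst NPC.Poly.id)) (NPC.Poly.snd NPC.Poly.id))
  obtain ⟨r3, hr3⟩ := hq.sz_le
  set R : Polynomial ℕ := r3.comp (Polynomial.X + Polynomial.C 4 * r1 + Polynomial.C 2) +
    Polynomial.C 1 with hR
  have hRe : ∀ x, R.eval x = r3.eval (x + 4 * r1.eval x + 2) + 1 := by
    intro x
    simp [hR, Polynomial.eval_comp]
  have hlen : ∀ a, ∀ k ≤ μ a, (listF f (qb a) (places (B a) (2 ^ l a)) (D a) k).length ≤
      R.eval (sz a) * (2 * D a ^ 2) := by
    intro a k hk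
    refine length_listF (h1 a) (h2 a) (h3 a) (h4 a) (by rw [hRe]; omega) ?_ k hk
    intro j hj
    have h5 := hr3 (a, j)
    have h6 := length_lt_sz (f (bits ((places (B a) (2 ^ l a)).map fun e => qb a j e.1 e.2)))
    have h7 : sz (a, j) ≤ sz a + 4 * r1.eval (sz a) + 2 := by
      rw [sz_pair]
      have h8 := sz_nat_le j
      have h9 := Poly.size_le_self j
      have h10 := hr1 a
      omega
    have h8 := eval_mono r3 h7
    rw [hRe]
    simp only at h5
    omega
  have hF : NPC.Poly (fun a => (List.range (μ a)).foldl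
      (fun A j => stepF' f (qb a) (places (B a) (2 ^ l a)) (D a) (μ a) j A) [0]) := by
    refine NPC.Poly.foldl (s := fun _ => [0]) (F := fun a A j => stepF' f (qb a)
      (places (B a) (2 ^ l a)) (D a) (μ a) j A) hμ.range (NPC.Poly.const _) ?_
      (R * (Polynomial.C 2 * r2 ^ 2) * (Polynomial.C 4 * r1 + Polynomial.C 2) +
        Polynomial.C 1) ?_
    · exact poly_stepF' hf (qb := fun x : α × List ℕ × ℕ => qb x.1) (hqb.comp
        (f := fun x : (α × List ℕ × ℕ) × ℕ × ℕ × ℕ => (x.1.1, x.2)) (by fun_prop))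
        (hP.comp (NPC.Poly.fst NPC.Poly.id)) (hD.toPoly.comp (NPC.Poly.fst NPC.Poly.id))
        (hμ.comp (NPC.Poly.fst NPC.Poly.id)) (by fun_prop) (by fun_prop)
    · intro a k hk'
      rw [List.length_range] at hk'
      rw [List.take_range, min_eq_left hk', foldl_stepF' f (qb a) _ _ _ k hk']
      have h5 := hlen a k hk'
      have h6 : ∀ v ∈ listF f (qb a) (places (B a) (2 ^ l a)) (D a) k, sz v ≤ 4 * μ a + 1 :=
        fun v hv => sz_lt_two_pow (lt_of_lt_of_le (listF_lt k v hv)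
          (Nat.pow_le_pow_right (by norm_num) hk'))
      refine (sz_le_length_mul _ _ h6).trans ?_
      simp only [Polynomial.eval_add, Polynomial.eval_mul, Polynomial.eval_C,
        Polynomial.eval_pow]
      refine Nat.add_le_add_right (Nat.mul_le_mul (h5.trans (Nat.mul_le_mul_left _
        (Nat.mul_le_mul_left _ (Nat.pow_le_pow_left (hr2 a) 2)))) ?_) _
      have := hr1 a
      omega
  exact hF.congr fun a => foldl_stepF' f (qb a) _ _ _ _ le_rfl

end Pool.Agent.H75C.FQ
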