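import Pool.Agent.H75C.FQ.Lang
import Pool.Agent.H75C.FQ.Defs

/-!
# Pruning lists of candidates with guesses for the code words
-/

set_option autoImplicit false

namespace Pool.Agent.H75C.FQ

open Pool.Agent.NPC Pool.Agent.Helper70K1.SP

/-! ### The places -/

/-- The places of the code words: a prime below `B` and a number below `M`. -/
def places (B M : ℕ) : List (ℕ × ℕ) := ((List.range B).filter (primeN B)).product (List.range M)

theorem mem_places {B M : ℕ} {e : ℕ × ℕ} :
    e ∈ places B M ↔ (e.1 < B ∧ e.1.Prime) ∧ e.2 < M := by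
  obtain ⟨q, b⟩ := e
  unfold places
  rw [List.pair_mem_product, List.mem_filter, List.mem_range, List.mem_range]
  constructor
  · rintro ⟨⟨h1, h2⟩, h3⟩
    exact ⟨⟨h1, (primeN_iff h1.le).1 h2⟩, h3⟩
  · rintro ⟨⟨h1, h2⟩, h3⟩
    exact ⟨⟨h1, (primeN_iff (le_of_lt h1)).2 h2⟩, h3⟩

theorem nodup_places (B M : ℕ) : (places B M).Nodup :=
  (List.nodup_range.filter _).product List.nodup_range

theorem toFinset_places (B M : ℕ) :
    (places B M).toFinset = ((Finset.range B).filter Nat.Prime) ×ˢ Finset.range M := by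
  ext e
  rw [List.mem_toFinset, mem_places, Finset.mem_product, Finset.mem_filter, Finset.mem_range,
    Finset.mem_range]

theorem length_places (B M : ℕ) :
    (places B M).length = ((Finset.range B).filter Nat.Prime).card * M := by
  rw [← List.toFinset_card_of_nodup (nodup_places B M), toFinset_places, Finset.card_product,
    Finset.card_range]

theorem sum_getD {β : Type} (g : β → ℤ) (d : β) : ∀ P : List β,
    ∑ i ∈ Finset.range P.length, g (P.getD i d) = (P.map g).sum
  | [] => by simp
  | a :: P => by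
    rw [List.length_cons, Finset.sum_range_succ', List.map_cons, List.sum_cons, add_comm]
    simp only [List.getD_cons_succ, List.getD_cons_zero]
    rw [sum_getD g d P]

theorem sum_places (B M : ℕ) (g : ℕ × ℕ → ℤ) :
    ∑ i ∈ Finset.range (places B M).length, g ((places B M).getD i (0, 0)) =
      ∑ q ∈ (Finset.range B).filter Nat.Prime, ∑ r ∈ Finset.range M, g (q, r) := by
  rw [sum_getD, ← List.sum_toFinset g (nodup_places B M), toFinset_places, Finset.sum_product]

/-! ### Counting agreements -/

/-- The number of places at which the guesses `b` agree with the code word of `v`. -/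
def cnt (P : List (ℕ × ℕ)) (b : List Bool) (v : ℕ) : ℕ :=
  ((List.range P.length).filter fun i =>
    decide (b.getD i false = cw v (P.getD i (0, 0)).1 (P.getD i (0, 0)).2)).length

theorem cnt_eq (P : List (ℕ × ℕ)) (b : List Bool) (v : ℕ) :
    cnt P b v = ((Finset.range P.length).filter fun i =>
      b.getD i false = cw v (P.getD i (0, 0)).1 (P.getD i (0, 0)).2).card := by
  unfold cnt
  rw [← List.toFinset_card_of_nodup (List.nodup_range.filter _)]
  congr 1
  ext i
  simp

theorem sum_sg (P : List (ℕ × ℕ)) (b : List Bool) (v : ℕ) :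
    ∑ i ∈ Finset.range P.length, sg (b.getD i false) *
      sg (cw v (P.getD i (0, 0)).1 (P.getD i (0, 0)).2) = 2 * cnt P b v - P.length := by
  simp only [sg_mul_eq]
  rw [Finset.sum_ite, Finset.sum_const, Finset.sum_const, cnt_eq]
  have h := Finset.card_filter_add_card_filter_not (s := Finset.range P.length)
    (fun i => b.getD i false = cw v (P.getD i (0, 0)).1 (P.getD i (0, 0)).2)
  rw [Finset.card_range] at h
  simp only [nsmul_eq_mul]
  have h' : ((((Finset.range P.length).filter fun i => b.getD i false =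
      cw v (P.getD i (0, 0)).1 (P.getD i (0, 0)).2).card : ℕ) : ℤ) +
      (((Finset.range P.length).filter fun i => ¬ b.getD i false =
      cw v (P.getD i (0, 0)).1 (P.getD i (0, 0)).2).card : ℕ) = (P.length : ℕ) := by
    exact_mod_cast h
  linarith

/-- The code words of few numbers agree with given guesses at many places. -/
theorem card_near {B l j D : ℕ} (hB : B ≤ 2 ^ l) (hD : 1 ≤ D)
    (hπ : 2 * D ^ 2 * j ≤ ((Finset.range B).filter Nat.Prime).card)
    (hπ0 : 0 < ((Finset.range B).filter Nat.Prime).card) (b : List Bool) (A : Finset ℕ)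
    (hA : ∀ v ∈ A, v < 2 ^ j)
    (h : ∀ v ∈ A, (D + 1) * (places B (2 ^ l)).length ≤ 2 * D * cnt (places B (2 ^ l)) b v) :
    A.card ≤ 2 * D ^ 2 := by
  classical
  set P := places B (2 ^ l) with hP
  have hcard : (Finset.range P.length).card = ((Finset.range B).filter Nat.Prime).card * 2 ^ l := by
    rw [Finset.card_range, hP, length_places]
  refine johnson (Finset.range P.length) A (fun i => sg (b.getD i false))
    (fun v i => sg (cw v (P.getD i (0, 0)).1 (P.getD i (0, 0)).2)) (fun i _ => sg_sq _) D
    (j * 2 ^ l) hD ?_ ?_ ?_ ?_ ?_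
  · intro v hv
    rw [sum_sg, Finset.card_range]
    have h1 := h v hv
    have h2 : ((D : ℤ) + 1) * (P.length : ℤ) ≤ 2 * D * cnt P b v := by exact_mod_cast h1
    linarith
  · intro v _
    simp only [sg_mul_self]
    rw [Finset.sum_const, nsmul_eq_mul, mul_one]
  · intro u hu v hv huv
    rw [sum_places B (2 ^ l) fun e => sg (cw u e.1 e.2) * sg (cw v e.1 e.2)]
    have h1 : ∀ q ∈ (Finset.range B).filter Nat.Prime,
        ∑ r ∈ Finset.range (2 ^ l), sg (cw u q r) * sg (cw v q r) =
          if u % q = v % q then 2 ^ l else 0 := by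
      intro q hq
      rw [Finset.mem_filter, Finset.mem_range] at hq
      have hu' : u % q < 2 ^ l := (Nat.mod_lt _ hq.2.pos).trans (lt_of_lt_of_le hq.1 hB)
      have hv' : v % q < 2 ^ l := (Nat.mod_lt _ hq.2.pos).trans (lt_of_lt_of_le hq.1 hB)
      simp only [cw, sg_ip hu', sg_ip hv']
      by_cases huv' : u % q = v % q
      · rw [if_pos huv', huv']
        simp only [sip_sq]
        simp
      · rw [if_neg huv', sum_sip hu' hv' huv']
    rw [Finset.sum_congr rfl h1, Finset.sum_ite, Finset.sum_const_zero, add_zero, Finset.sum_const,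
      nsmul_eq_mul]
    have h2 := card_common (B := B) (hA u hu) (hA v hv) huv
    push_cast
    have h3 : ((((Finset.range B).filter Nat.Prime).filter fun q => u % q = v % q).card : ℤ) ≤ j := by
      exact_mod_cast h2
    exact mul_le_mul_of_nonneg_right h3 (by positivity)
  · rw [hcard, ← mul_assoc]
    exact Nat.mul_le_mul_right _ hπ
  · rw [hcard]
    positivity

/-! ### The candidates -/

variable {f : List Bool → List (List Bool)} {qb : ℕ → ℕ → ℕ → List Bool} {P : List (ℕ × ℕ)}
  {D : ℕ}

/-- The candidate `v` for the first `j` digits is kept. -/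
def keepF (f : List Bool → List (List Bool)) (qb : ℕ → ℕ → ℕ → List Bool) (P : List (ℕ × ℕ))
    (D j v : ℕ) : Bool :=
  (f (bits (P.map fun e => qb j e.1 e.2))).any fun b =>
    decide ((D + 1) * P.length ≤ 2 * D * cnt P b v)

/-- One more digit. -/
def stepF (f : List Bool → List (List Bool)) (qb : ℕ → ℕ → ℕ → List Bool) (P : List (ℕ × ℕ))
    (D j : ℕ) (A : List ℕ) : List ℕ :=
  (A ++ A.map fun v => v + 2 ^ j).filter (keepF f qb P D (j + 1))

/-- The candidates for the first `j` digits. -/
def listF (f : List Bool → List (List Bool)) (qb : ℕ → ℕ → ℕ → List Bool) (P : List (ℕ × ℕ))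
    (D : ℕ) : ℕ → List ℕ
  | 0 => [0]
  | j + 1 => stepF f qb P D j (listF f qb P D j)

theorem listF_lt : ∀ (j : ℕ), ∀ v ∈ listF f qb P D j, v < 2 ^ j
  | 0, v, hv => by
    simp only [listF, List.mem_singleton] at hv
    simp [hv]
  | j + 1, v, hv => by
    rw [listF, stepF, List.mem_filter, List.mem_append, List.mem_map] at hv
    rw [pow_succ]
    rcases hv.1 with h | ⟨u, h, rfl⟩
    · have := listF_lt j v h
      omega
    · have := listF_lt j u h
      omega

theorem nodup_listF : ∀ j : ℕ, (listF f qb P D j).Nodup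
  | 0 => by simp [listF]
  | j + 1 => by
    rw [listF, stepF]
    exact (nodup_ext (nodup_listF j) (listF_lt j)).filter _

/-- There are few candidates. -/
theorem length_listF {B l μ R : ℕ} (hB : B ≤ 2 ^ l) (hD : 1 ≤ D)
    (hπ : 2 * D ^ 2 * μ ≤ ((Finset.range B).filter Nat.Prime).card)
    (hπ0 : 0 < ((Finset.range B).filter Nat.Prime).card) (hR0 : 1 ≤ R)
    (hR : ∀ j ≤ μ, (f (bits ((places B (2 ^ l)).map fun e => qb j e.1 e.2))).length ≤ R) :
    ∀ j ≤ μ, (listF f qb (places B (2 ^ l)) D j).length ≤ R * (2 * D ^ 2)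
  | 0, _ => by
    simp only [listF, List.length_singleton]
    have : 1 ≤ D ^ 2 := Nat.one_le_pow _ _ hD
    nlinarith
  | j + 1, hj => by
    classical
    set P := places B (2 ^ l) with hP
    set C := listF f qb P D (j + 1) with hC
    set bs := f (bits (P.map fun e => qb (j + 1) e.1 e.2)) with hbs
    have hnd : C.Nodup := nodup_listF (j + 1)
    have hsub : C.toFinset ⊆ bs.toFinset.biUnion fun b => C.toFinset.filter fun v =>
        (D + 1) * P.length ≤ 2 * D * cnt P b v := by
      intro v hv
      rw [List.mem_toFinset] at hv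
      have h1 := hv
      rw [hC, listF, stepF, List.mem_filter, keepF, List.any_eq_true] at h1
      obtain ⟨b, hb, h2⟩ := h1.2
      rw [Finset.mem_biUnion]
      exact ⟨b, List.mem_toFinset.2 hb, Finset.mem_filter.2 ⟨List.mem_toFinset.2 hv,
        of_decide_eq_true h2⟩⟩
    have h3 := (Finset.card_le_card hsub).trans (Finset.card_biUnion_le.trans
      (Finset.sum_le_card_nsmul _ _ (2 * D ^ 2) fun b _ => by
        refine card_near (j := j + 1) hB hD (le_trans (Nat.mul_le_mul_left _ hj) hπ) hπ0 b _ ?_ ?_
        · intro v hv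
          rw [Finset.mem_filter, List.mem_toFinset] at hv
          exact listF_lt _ v hv.1
        · intro v hv
          exact (Finset.mem_filter.1 hv).2))
    rw [List.toFinset_card_of_nodup hnd, smul_eq_mul] at h3
    exact h3.trans (Nat.mul_le_mul_right _ ((List.toFinset_card_le bs).trans (hR (j + 1) hj)))

theorem cnt_agree {L : Set (List Bool)} {v j : ℕ}
    (hq : ∀ e ∈ P, (qb j e.1 e.2 ∈ L ↔ cw v e.1 e.2 = true)) (b : List Bool) :
    cnt P b v = agree L (P.map fun e => qb j e.1 e.2) b := by
  classical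
  rw [cnt_eq, agree, List.length_map]
  congr 1
  ext i
  simp only [Finset.mem_filter, Finset.mem_range]
  refine and_congr_right fun hi => ?_
  have h1 : (P.map fun e => qb j e.1 e.2).getD i [] = qb j P[i].1 P[i].2 := by
    rw [List.getD_eq_getElem _ _ (by rwa [List.length_map])]
    simp
  rw [h1, List.getD_eq_getElem _ _ hi, hq _ (List.getElem_mem hi), Bool.eq_iff_iff]

/-- The true value is among the candidates. -/
theorem mem_listF {L : Set (List Bool)} {V μ : ℕ}
    (hq : ∀ j ≤ μ, ∀ e ∈ P, (qb j e.1 e.2 ∈ L ↔ cw (V % 2 ^ j) e.1 e.2 = true))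
    (hf : ∀ j ≤ μ, ∃ b ∈ f (bits (P.map fun e => qb j e.1 e.2)),
      (D + 1) * P.length ≤ 2 * D * agree L (P.map fun e => qb j e.1 e.2) b) :
    ∀ j ≤ μ, V % 2 ^ j ∈ listF f qb P D j
  | 0, _ => by simp [listF, Nat.mod_one]
  | j + 1, hj => by
    have ih := mem_listF hq hf j (by omega)
    rw [listF, stepF, List.mem_filter]
    constructor
    · rw [List.mem_append, List.mem_map]
      have h1 : V % 2 ^ (j + 1) = V % 2 ^ j + 2 ^ j * (V / 2 ^ j % 2) := Nat.mod_pow_succ
      rcases Nat.mod_two_eq_zero_or_one (V / 2 ^ j) with h2 | h2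
      · left
        rw [h1, h2]
        simpa using ih
      · right
        exact ⟨_, ih, by rw [h1, h2]; ring⟩
    · obtain ⟨b, hb, h1⟩ := hf (j + 1) hj
      rw [keepF, List.any_eq_true]
      refine ⟨b, hb, ?_⟩
      rw [decide_eq_true_eq, cnt_agree (hq (j + 1) hj)]
      exact h1

end Pool.Agent.H75C.FQ
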